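import Pool.Agent.Helper58.G4.C0

/-! # G4-C0 (re-export) -/

namespace Pool.Agent.Helper22.G4

alias NF.opd_ok := Pool.Agent.Helper58.G4.NF.opd_ok
alias NF.opds_inj := Pool.Agent.Helper58.G4.NF.opds_inj
alias NF.opds_exists := Pool.Agent.Helper58.G4.NF.opds_exists
alias NF.size := Pool.Agent.Helper58.G4.NF.size
alias NF.mem_verts := Pool.Agent.Helper58.G4.NF.mem_verts
alias NF.verts_cases := Pool.Agent.Helper58.G4.NF.verts_cases
alias NF.pu_iff := Pool.Agent.Helper58.G4.NF.pu_iff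
alias NF.pu_lt := Pool.Agent.Helper58.G4.NF.pu_lt
alias NF.pu_long := Pool.Agent.Helper58.G4.NF.pu_long
alias NF.pu_unique := Pool.Agent.Helper58.G4.NF.pu_unique
alias NF.pu_cover := Pool.Agent.Helper58.G4.NF.pu_cover
alias NF.p_mem := Pool.Agent.Helper58.G4.NF.p_mem
alias NF.q_mem := Pool.Agent.Helper58.G4.NF.q_mem
alias NF.b_mem := Pool.Agent.Helper58.G4.NF.b_mem
alias NF.mem_fcodes := Pool.Agent.Helper58.G4.NF.mem_fcodes
alias NF.mem_flats := Pool.Agent.Helper58.G4.NF.mem_flats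
alias NF.prev_mem := Pool.Agent.Helper58.G4.NF.prev_mem
alias NF.next_mem := Pool.Agent.Helper58.G4.NF.next_mem
alias Fc.mem_u := Pool.Agent.Helper58.G4.Fc.mem_u
alias Fc.mem_b1 := Pool.Agent.Helper58.G4.Fc.mem_b1
alias Fc.mem_b2 := Pool.Agent.Helper58.G4.Fc.mem_b2
alias Fc.mem_p := Pool.Agent.Helper58.G4.Fc.mem_p
alias Fc.mem_q := Pool.Agent.Helper58.G4.Fc.mem_q

end Pool.Agent.Helper22.G4
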