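import Pool.Agent.Helper82.G4.A5

/-! # G4-A5 (re-export) -/

namespace Pool.Agent.Helper22.G4

alias conic_of_realizable := Pool.Agent.Helper82.G4.conic_of_realizable

end Pool.Agent.Helper22.G4
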