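import Pool.Agent.Helper9.G4.C13

/-! # G4-C13 (re-export) -/

namespace Pool.Agent.Helper22.G4

alias NF.t0_free := Pool.Agent.Helper9.G4.NF.t0_free

end Pool.Agent.Helper22.G4
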