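import Pool.Agent.Helper35.G4.C2

/-! # G4-C2 (re-export) -/

namespace Pool.Agent.Helper22.G4

alias NF.fcodes_nodup := Pool.Agent.Helper35.G4.NF.fcodes_nodup
alias NF.flats_nodup := Pool.Agent.Helper35.G4.NF.flats_nodup

end Pool.Agent.Helper22.G4
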