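import Pool.Agent.Helper49.G4.C8

/-! # G4-C8 (re-export) -/

namespace Pool.Agent.Helper22.G4

alias NF.padj_symm := Pool.Agent.Helper49.G4.NF.padj_symm
alias NF.padj_page := Pool.Agent.Helper49.G4.NF.padj_page
alias NF.padj_b2 := Pool.Agent.Helper49.G4.NF.padj_b2
alias NF.padj_b1 := Pool.Agent.Helper49.G4.NF.padj_b1
alias NF.padj_b := Pool.Agent.Helper49.G4.NF.padj_b
alias NF.padj_left := Pool.Agent.Helper49.G4.NF.padj_left
alias NF.padj_right := Pool.Agent.Helper49.G4.NF.padj_right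
alias NF.edge_page0 := Pool.Agent.Helper49.G4.NF.edge_page0
alias NF.edge_pages := Pool.Agent.Helper49.G4.NF.edge_pages

end Pool.Agent.Helper22.G4
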