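import Pool.Agent.Helper22.G4.St.C1
import Pool.Agent.Helper22.G4.St.C2
import Pool.Agent.Helper22.G4.St.C3
import Pool.Agent.Helper22.G4.St.C4
import Pool.Agent.Helper22.G4.St.C5
import Pool.Agent.Helper22.G4.St.C6
import Pool.Agent.Helper22.G4.St.C7
import Pool.Agent.Helper22.G4.St.C8
import Pool.Agent.Helper22.G4.St.C9
import Pool.Agent.Helper22.G4.St.C10
import Pool.Agent.Helper22.G4.St.C11
import Pool.Agent.Helper22.G4.St.C12
import Pool.Agent.Helper22.G4.St.C13
import Pool.Agent.Helper22.G4.St.C15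

/-! # G4-C14: the base polytope satisfies the conditions -/

namespace Pool.Agent.Helper22.G4

theorem NF.flats_cases {I : NF} {R : Flat Vx Fc} (hR : R ∈ I.data.flats) :
    (R = I.page0 ∨ ∃ d ∈ I.opds, R ∈ (OpD.flats I.M I.N d).take 10) ∨
      ∃ d ∈ I.opds, R ∈ (OpD.flats I.M I.N d).drop 10 := by
  change R ∈ I.page0 :: I.opds.flatMap (OpD.flats I.M I.N) at hR
  rw [List.mem_cons, List.mem_flatMap] at hR
  rcases hR with hR | ⟨d, hd, hR⟩
  · exact .inl (.inl hR)
  · rw [← List.take_append_drop 10 (OpD.flats I.M I.N d), List.mem_append] at hR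
    rcases hR with hR | hR
    · exact .inl (.inr ⟨d, hd, hR⟩)
    · exact .inr ⟨d, hd, hR⟩

/-- G4-C14 (assembly). -/
theorem NF.good {I : NF} (hI : I.OK) : I.data.Good where
  vnd := NF.verts_nodup hI
  fnd := NF.fcodes_nodup hI
  rnd := NF.flats_nodup hI
  big := by
    have h1 : 10 ≤ I.N := by unfold NF.N NF.K; omega
    change 6 ≤ (Vx.b1 :: Vx.b2 :: ((List.range I.N).map (fun i => Vx.u 0 i (i + 1)) ++
      I.opds.flatMap (OpD.verts I.N))).length
    simp only [List.length_cons, List.length_append, List.length_map, List.length_range]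
    omega
  anti := NF.anti hI
  fvert := NF.fvert hI
  fac3 := NF.fac3 hI
  len := fun R hR => (NF.flat_basic hI R hR).1
  nd := fun R hR => (NF.flat_basic hI R hR).2.1
  sub := fun R hR => (NF.flat_basic hI R hR).2.2.1
  mem1 := fun R hR => (NF.flat_basic hI R hR).2.2.2.1
  mem2 := fun R hR => (NF.flat_basic hI R hR).2.2.2.2.1
  ne := fun R hR => (NF.flat_basic hI R hR).2.2.2.2.2
  inter := NF.flat_inter hI
  diag := NF.flat_diag hI
  edge := by
    intro R hR
    rcases NF.flats_cases hR with (rfl | ⟨d, hd, hR⟩) | ⟨d, hd, hR⟩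
    · exact NF.edge_page0 hI
    · exact NF.edge_pages hI d hd R hR
    · exact NF.edge_gadgets hI d hd R hR
  sep := by
    intro R hR S hS hRS f hf g hg h1 h2 h3 h4
    rcases NF.flats_cases hS with hS' | hS'
    · rcases NF.flats_cases hR with hR' | hR'
      · exact NF.sep_pages hI R S hRS hR' hS' f hf g hg h1 h2 h3 h4
      · exact NF.sep_gadgets hI S R hRS.symm hS hR' f hf g hg h3 h4 h1 h2
    · exact NF.sep_gadgets hI R S hRS hR hS' f hf g hg h1 h2 h3 h4
  conn := NF.flat_conn hI

end Pool.Agent.Helper22.G4
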