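import Pool.Agent.Helper28.G4.G1

/-! # G4-G1 (re-export) -/

namespace Pool.Agent.Helper22.G4

alias Realizable.map := Pool.Agent.Helper28.G4.Realizable.map
alias gen_l0 := Pool.Agent.Helper28.G4.gen_l0

end Pool.Agent.Helper22.G4
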