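import Pool.Agent.Helper91.G4.G2

/-! # G4-G2 (re-export) -/

namespace Pool.Agent.Helper22.G4

alias gen_facts0 := Pool.Agent.Helper91.G4.gen_facts0
alias gen_l1 := Pool.Agent.Helper91.G4.gen_l1
alias gen_facts1 := Pool.Agent.Helper91.G4.gen_facts1

end Pool.Agent.Helper22.G4
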