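import Pool.Agent.Helper2.G4.G6

/-! # G4-G6 (re-export) -/

namespace Pool.Agent.Helper22.G4

alias gen_T_list := Pool.Agent.Helper2.G4.gen_T_list
alias gen_T_inj := Pool.Agent.Helper2.G4.gen_T_inj
alias gen_T_clique := Pool.Agent.Helper2.G4.gen_T_clique

end Pool.Agent.Helper22.G4
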