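import Pool.Agent.Helper64.G4.H1

/-! # G4-H1 (re-export) -/

namespace Pool.Agent.Helper22.G4

alias gen_chord := Pool.Agent.Helper64.G4.gen_chord
alias gen_conn := Pool.Agent.Helper64.G4.gen_conn

end Pool.Agent.Helper22.G4
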