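import Pool.Agent.Helper49.G4.H4

/-! # G4-H4 (re-export) -/

namespace Pool.Agent.Helper22.G4

alias gen_free := Pool.Agent.Helper49.G4.gen_free

end Pool.Agent.Helper22.G4
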