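import Pool.Agent.Helper67.G4.M3

/-! # G4-M3 (re-export) -/

namespace Pool.Agent.Helper22.G4

alias ptf_memF := Pool.Agent.Helper67.G4.ptf_memF

end Pool.Agent.Helper22.G4
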