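import Pool.Agent.Helper62.G4.N3

/-! # G4-N3 (re-export) -/

namespace Pool.Agent.Helper22.G4

alias posOf_lt := Pool.Agent.Helper62.G4.posOf_lt
alias nfOf_ok := Pool.Agent.Helper62.G4.nfOf_ok

end Pool.Agent.Helper22.G4
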