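import Pool.Agent.Helper59.G4.N5

/-! # G4-N5 (re-export) -/

namespace Pool.Agent.Helper22.G4

alias posWeak_of_weak := Pool.Agent.Helper59.G4.posWeak_of_weak

end Pool.Agent.Helper22.G4
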