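import Pool.Agent.Helper96.G4.N6

/-! # G4-N6 (re-export) -/

namespace Pool.Agent.Helper22.G4

alias nfQ_ok := Pool.Agent.Helper96.G4.nfQ_ok
alias nfQ_strong := Pool.Agent.Helper96.G4.nfQ_strong
alias nfQ_weak := Pool.Agent.Helper96.G4.nfQ_weak

end Pool.Agent.Helper22.G4
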