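import Pool.Agent.Helper50.G4.P2

/-! # G4-P2 (re-export) -/

namespace Pool.Agent.Helper22.G4

alias FaceOn.restrict := Pool.Agent.Helper50.G4.FaceOn.restrict
alias FaceOn.trans := Pool.Agent.Helper50.G4.FaceOn.trans
alias Conf.restrict := Pool.Agent.Helper50.G4.Conf.restrict
alias FaceOn.of_simplex := Pool.Agent.Helper50.G4.FaceOn.of_simplex

end Pool.Agent.Helper22.G4
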