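import Pool.Agent.Helper52.G4.P4

/-! # G4-P4 (re-export) -/

namespace Pool.Agent.Helper22.G4

alias rank_le_neighbours := Pool.Agent.Helper52.G4.rank_le_neighbours

end Pool.Agent.Helper22.G4
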