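import Pool.Agent.Helper58.G4.P7

/-! # G4-P7 (re-export) -/

namespace Pool.Agent.Helper22.G4

alias parity := Pool.Agent.Helper58.G4.parity

end Pool.Agent.Helper22.G4
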