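import Pool.Agent.Helper91.G4.R1

/-! # G4-R1 (re-export) -/

namespace Pool.Agent.Helper22.G4

alias lengths_add := Pool.Agent.Helper91.G4.lengths_add
alias lengths_mul := Pool.Agent.Helper91.G4.lengths_mul

end Pool.Agent.Helper22.G4
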