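import Pool.Agent.Helper62.G4.R11

/-! # G4-R11 (re-export) -/

namespace Pool.Agent.Helper22.G4

alias valid_F_page := Pool.Agent.Helper62.G4.valid_F_page
alias valid_Q_page := Pool.Agent.Helper62.G4.valid_Q_page

end Pool.Agent.Helper22.G4
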