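import Pool.Agent.Helper65.G4.R14

/-! # G4-R14 (re-export) -/

namespace Pool.Agent.Helper22.G4

alias valid_F := Pool.Agent.Helper65.G4.valid_F

end Pool.Agent.Helper22.G4
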