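import Pool.Agent.Helper82.G4.R15

/-! # G4-R15 (re-export) -/

namespace Pool.Agent.Helper22.G4

alias c_span := Pool.Agent.Helper82.G4.c_span
alias c_pos := Pool.Agent.Helper82.G4.c_pos

end Pool.Agent.Helper22.G4
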