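import Pool.Agent.Helper10.G4.R16

/-! # G4-R16 (re-export) -/

namespace Pool.Agent.Helper22.G4

alias fcodes_cases := Pool.Agent.Helper10.G4.fcodes_cases
alias gad_mem := Pool.Agent.Helper10.G4.gad_mem
alias pair_cases := Pool.Agent.Helper10.G4.pair_cases
alias QM_mem := Pool.Agent.Helper10.G4.QM_mem

end Pool.Agent.Helper22.G4
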