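import Pool.Agent.Helper67.G4.R3

/-! # G4-R3 (re-export) -/

namespace Pool.Agent.Helper22.G4

alias page_chain := Pool.Agent.Helper67.G4.page_chain
alias page_zero := Pool.Agent.Helper67.G4.page_zero

end Pool.Agent.Helper22.G4
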