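import Pool.Agent.Helper2.G4.R5

/-! # G4-R5 (re-export) -/
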