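import Pool.Agent.Helper76.G4.R6

/-! # G4-R6 (re-export) -/

namespace Pool.Agent.Helper22.G4

alias InCone.zero := Pool.Agent.Helper76.G4.InCone.zero
alias InCone.add := Pool.Agent.Helper76.G4.InCone.add
alias InCone.smul := Pool.Agent.Helper76.G4.InCone.smul
alias InCone.of_mem := Pool.Agent.Helper76.G4.InCone.of_mem

end Pool.Agent.Helper22.G4
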