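import Pool.Agent.Helper87.G4.R9

/-! # G4-R9 (re-export) -/

namespace Pool.Agent.Helper22.G4

alias gad_T := Pool.Agent.Helper87.G4.gad_T
alias gad_interpolate := Pool.Agent.Helper87.G4.gad_interpolate
alias gad_middle := Pool.Agent.Helper87.G4.gad_middle

end Pool.Agent.Helper22.G4
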