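import Pool.Agent.Helper76.G4.S1

/-! # G4-S1 (re-export) -/

namespace Pool.Agent.Helper22.G4

alias snd_tau := Pool.Agent.Helper76.G4.snd_tau
alias conf_pair := Pool.Agent.Helper76.G4.conf_pair
alias snd_page := Pool.Agent.Helper76.G4.snd_page

end Pool.Agent.Helper22.G4
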