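import Pool.Agent.Helper2.G4.S3

/-! # G4-S3 (re-export) -/
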