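import Pool.Agent.Helper50.G4.S5

/-! # G4-S5 (re-export) -/

namespace Pool.Agent.Helper22.G4

alias weak_of_dirs := Pool.Agent.Helper50.G4.weak_of_dirs

end Pool.Agent.Helper22.G4
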