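import Pool.Agent.Helper85.G4.S6

/-! # G4-S6 (re-export) -/

namespace Pool.Agent.Helper22.G4

alias snd_squad := Pool.Agent.Helper85.G4.snd_squad

end Pool.Agent.Helper22.G4
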