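import Pool.Agent.Helper2.G4.T1

/-! # G4-T1 (re-export) -/

namespace Pool.Agent.Helper22.G4

alias ptf_quadsOf := Pool.Agent.Helper2.G4.ptf_quadsOf

end Pool.Agent.Helper22.G4
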