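import Pool.Agent.Helper76.G4.T3

/-! # G4-T3 (re-export) -/

namespace Pool.Agent.Helper22.G4

alias ptf_verts := Pool.Agent.Helper76.G4.ptf_verts
alias ptf_fcodes := Pool.Agent.Helper76.G4.ptf_fcodes

end Pool.Agent.Helper22.G4
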