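import Pool.Agent.Helper91.G4.T8

/-! # G4-T8 (re-export) -/

namespace Pool.Agent.Helper22.G4

alias tm2_graph4Of := Pool.Agent.Helper91.G4.tm2_graph4Of

end Pool.Agent.Helper22.G4
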