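import Pool.Agent.Helper22.G4.Poly
import Pool.Agent.Helper22.G4.St.C14
import Pool.Agent.Helper22.G4.St.G7
import Pool.Agent.Helper22.G4.St.H5
import Pool.Agent.Helper22.G4.St.R17
import Pool.Agent.Helper22.G4.St.S8

/-! # G4-Z1: the graph of a system in normal form -/

namespace Pool.Agent.Helper22.G4

open Pool.Agent.Helper89 Pool.Agent.Helper91.PolyTime

/-- G4-Z1 -/
theorem NF.conic_iff {I : NF} (hI : I.OK) : (I.Strong → ConicGraph I.data.allX.toFinset
    I.data.adjX) ∧ (ConicGraph I.data.allX.toFinset I.data.adjX → I.Weak) := by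
  constructor
  · intro hs
    exact gen_realize (NF.good hI) (real_base hI hs)
  · intro h
    obtain ⟨c, hc⟩ := gen_model (NF.good hI) h
    exact weak_of_model hI hc

end Pool.Agent.Helper22.G4
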