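import Pool.Agent.Helper22.G4.Poly
import Pool.Agent.Helper22.G4.St.E1
import Pool.Agent.Helper22.G4.St.F3
import Pool.Agent.Helper22.G4.St.F4
import Pool.Agent.Helper22.G4.St.F5
import Pool.Agent.Helper22.G4.St.N6
import Pool.Agent.Helper22.G4.St.Z1

/-! # G4-Z2: correctness of the reduction -/

namespace Pool.Agent.Helper22.G4

open Pool.Agent.Helper89 Pool.Agent.Helper91.PolyTime

/-- G4-Z2 -/
theorem poly_graph4Of (φ : QFormula) :
    IsGraphOf4Polytope (graph4Of φ).graph ↔ ∃ x : ℕ → ℝ, φ.Holds x := by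
  have hI := nfQ_ok (quadsOf φ.enc)
  have hD := NF.good hI
  have h1 : IsGraphOf4Polytope (graph4Of φ).graph ↔
      ConicGraph (nfQ (quadsOf φ.enc)).data.allX.toFinset (nfQ (quadsOf φ.enc)).data.adjX :=
    poly_toEdgeList _ (Data.allX_nodup hD) _ _ (Data.mem_edgesX hD)
  rw [h1, ← quadSat_quadsOf]
  exact ⟨fun h => nfQ_weak ((NF.conic_iff hI).2 h), fun h => (NF.conic_iff hI).1 (nfQ_strong h)⟩

end Pool.Agent.Helper22.G4
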