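import Pool.Agent.Helper22.G4.Poly
import Pool.Agent.Helper22.G4.St.Z2
import Pool.Agent.Helper22.G4.St.T8
import Pool.Agent.Helper22.G4.St.M1
import Pool.Agent.Helper22.G4.St.M2
import Pool.Agent.Helper22.G4.St.M4
import Pool.Agent.Helper22.G4.St.M5
import Pool.Agent.Helper22.G4.St.F6
import Pool.Agent.Helper89.Comp

/-! # G4-Z3: GRAPH4 is complete for the existential theory of the reals -/

namespace Pool.Agent.Helper22.G4

open Pool.Agent.Helper89 Pool.Agent.Helper91.PolyTime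

theorem inExistsR_graph4 : InExistsR GRAPH4 := by
  refine ⟨fun G : EdgeList => memF G.n (natEdges G), tm2_memF, fun G => ?_⟩
  change IsGraphOf4Polytope G.graph ↔ ∃ x : ℕ → ℝ, (memF G.n (natEdges G)).Holds x
  rw [poly_edgeList, memF_iff]
  exact ⟨algCond_of_conic _ _, conic_of_algCond _ _ fun u v h => h.symm⟩

theorem reduces_trans {A B C : DecisionProblem} (h₁ : PolyTimeReduces A B)
    (h₂ : PolyTimeReduces B C) : PolyTimeReduces A C := by
  obtain ⟨f, ⟨hf⟩, hf'⟩ := h₁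
  obtain ⟨g, ⟨hg⟩, hg'⟩ := h₂
  exact ⟨g ∘ f, TM2Poly.comp hf hg, fun a => (hf' a).trans (hg' (f a))⟩

theorem etr_reduces_graph4 : PolyTimeReduces ETR GRAPH4 :=
  ⟨graph4Of, tm2_graph4Of, fun φ => (poly_graph4Of φ).symm⟩

/-- G4-Z3 -/
theorem graph4_complete : ExistsRComplete GRAPH4 :=
  ⟨inExistsR_graph4, fun _ hA => reduces_trans hA etr_reduces_graph4⟩

end Pool.Agent.Helper22.G4
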